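import Mathlib
import Pool.Agent.V11316.Z1

set_option autoImplicit false

/-! Sums of symplectic and of orthogonal contents over hook lengths (MP_3e0fcf, Q1).
Rows and columns of a `YoungDiagram` are numbered from `0`: the cell `(i, j)` of the
problem is `(i - 1, j - 1)` here; `rowLen` gives the parts of `μ`, `colLen` those of `μ'`. -/

namespace Pool.Agent.Results.MP_3e0fcf_co.ContentSums

/-- the hook length of the cell `u` -/
def hook (μ : YoungDiagram) (u : ℕ × ℕ) : ℤ :=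
  ((μ.rowLen u.1 : ℤ) - (u.2 + 1)) + ((μ.colLen u.2 : ℤ) - (u.1 + 1)) + 1

/-- the symplectic content of the cell `u` -/
def csp (μ : YoungDiagram) (u : ℕ × ℕ) : ℤ :=
  if u.2 < u.1 then ((μ.rowLen u.1 : ℤ) - (u.1 + 1)) + ((μ.rowLen u.2 : ℤ) - (u.2 + 1)) + 2
  else -((μ.colLen u.1 : ℤ) - (u.1 + 1)) - ((μ.colLen u.2 : ℤ) - (u.2 + 1))

/-- the orthogonal content of the cell `u` -/
def cO (μ : YoungDiagram) (u : ℕ × ℕ) : ℤ :=
  if u.2 ≤ u.1 then ((μ.rowLen u.1 : ℤ) - (u.1 + 1)) + ((μ.rowLen u.2 : ℤ) - (u.2 + 1))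
  else -((μ.colLen u.1 : ℤ) - (u.1 + 1)) - ((μ.colLen u.2 : ℤ) - (u.2 + 1)) - 2

/-- `a n`: the sum over all Young diagrams with `n` cells of the product of `c_sp(u) / h(u)` -/
noncomputable def a (n : ℕ) : ℚ :=
  ∑ᶠ μ ∈ {μ : YoungDiagram | μ.card = n}, ∏ u ∈ μ.cells, ((csp μ u : ℚ) / (hook μ u : ℚ))

/-- `b n`: the sum over all Young diagrams with `n` cells of the product of `c_O(u) / h(u)` -/
noncomputable def b (n : ℕ) : ℚ :=
  ∑ᶠ μ ∈ {μ : YoungDiagram | μ.card = n}, ∏ u ∈ μ.cells, ((cO μ u : ℚ) / (hook μ u : ℚ))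

open scoped PowerSeries.WithPiTopology in
/-- **Q1 of MP_3e0fcf**: `∑ a_n x^n = ∑ b_n x^n = ∏_{k ≥ 1} (1 + x^(4k-2))⁻¹`.
The identity of power series is given as a convergent infinite product, and also coefficient by
coefficient: the factors with `4k+2 > n` do not matter for the coefficient of `x^n`. Moreover the
sums over Young diagrams are finite, and `a_n` is, up to the sign `(-1)^(n/2)`, the number of
partitions of `n` with all parts congruent to `2` modulo `4`. -/
theorem result :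
    (∀ n : ℕ, {μ : YoungDiagram | μ.card = n}.Finite) ∧
    HasProd (fun k : ℕ => (1 + (PowerSeries.X : PowerSeries ℚ) ^ (4 * k + 2))⁻¹)
      (PowerSeries.mk a) ∧
    PowerSeries.mk b = PowerSeries.mk a ∧
    (∀ n K : ℕ, n < 4 * K + 2 →
      PowerSeries.coeff n (∏ k ∈ Finset.range K, (1 + (PowerSeries.X : PowerSeries ℚ) ^ (4 * k + 2))⁻¹)
        = a n) ∧
    (∀ n : ℕ, a n = (-1) ^ (n / 2) *
      ((Finset.univ.filter fun p : Nat.Partition n => ∀ i ∈ p.parts, i % 4 = 2).card : ℚ)) := by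
  refine ⟨V11316.Z0.finite_card, ?_, ?_, fun n K hK => V11316.Z1.coeff_prod n K hK, fun n => V11316.Z1.a_eq n⟩
  · have h := V11316.Z1.hasProd_k
    have e : Nat.Partition.genFun V11316.Z1.f = PowerSeries.mk a := by
      ext n
      rw [V11316.Z1.coeff_f, PowerSeries.coeff_mk]
      rfl
    rw [e] at h
    exact h
  · ext n
    rw [PowerSeries.coeff_mk, PowerSeries.coeff_mk]
    exact V11316.Z1.b_eq n

end Pool.Agent.Results.MP_3e0fcf_co.ContentSums
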